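import Pool.Agent.Helper18.SK.Defs

/-!
# W2: every walk in the de Bruijn graph is spelled by a word (MP_449ba1_co)
-/

set_option autoImplicit false

namespace Pool.Agent.Helper18.SK

lemma w2_facs_cons {α : Type} (k : ℕ) (a : α) (y : List α) (h : k ≤ y.length + 1) :
    facs k (a :: y) = (a :: y).take k :: facs k y := by
  unfold facs
  rw [List.tails_cons, List.filter_cons]
  simp [h]

lemma w2_facs_short {α : Type} (k : ℕ) (y : List α) (h : y.length < k) : facs k y = [] := by
  unfold facs
  rw [List.map_eq_nil_iff, List.filter_eq_nil_iff]
  intro t ht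
  have h1 : t.length ≤ y.length := ((List.mem_tails _ _).1 ht).length_le
  simp only [decide_eq_true_eq]
  omega

/-- **W2.** -/
theorem w2 : GSpell := by
  intro α _ k hk p q l
  induction l generalizing p with
  | nil =>
    intro hp _ hW
    have hpq : p = q := hW
    subst hpq
    refine ⟨p, by simp [hp], ?_, by simp, w2_facs_short k p (by omega)⟩
    rw [← hp, List.take_length]
  | cons e l ih =>
    intro hp hx hW
    obtain ⟨hW1, hW2⟩ := hW
    have he : e.length = k := hx e (by simp)
    have hb : (btgt e).length = k - 1 := by unfold btgt; simp [he]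
    obtain ⟨y, hy1, hy2, hy3, hy4⟩ := ih (btgt e) hb (fun x hxl => hx x (by simp [hxl])) hW2
    cases e with
    | nil => simp at he; omega
    | cons a e =>
      have hbt : btgt (a :: e) = e := by unfold btgt; simp
      rw [hbt] at hy2
      have htk : (a :: y).take k = a :: e := by
        obtain ⟨k', rfl⟩ : ∃ k', k = k' + 1 := ⟨k - 1, by omega⟩
        rw [List.take_succ_cons]
        simp only [Nat.add_sub_cancel] at hy2
        rw [hy2]
      refine ⟨a :: y, ?_, ?_, ?_, ?_⟩
      · simp only [List.length_cons, hy1]; omega
      · have h1 : (a :: y).take (k - 1) = ((a :: y).take k).take (k - 1) := by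
          rw [List.take_take]; congr 1; omega
        rw [h1, htk]
        exact hW1
      · simp [hy3]
      · rw [w2_facs_cons k a y (by omega), htk, hy4]

end Pool.Agent.Helper18.SK
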